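import Pool.Agent.Work.MP_88b7aa_gt.D.C457.M0

/-! The class is done. -/

set_option autoImplicit false

namespace Pool.Agent.Work.MP_88b7aa_gt.D.C457

open Pool.Agent.Work.MP_88b7aa_gt.PQ
open Pool.Agent.Work.MP_88b7aa_gt.Kc

theorem g0 : CGood (KS (.ex 4) (.ex 5) (.ex 7)) H.k ⟨199032864766430, 0, 0, 0, 0, 8⟩ ⟨227718039650213, 0, 0, 0, 0, 8⟩ ⟨253600191109860, 0, 0, 0, 0, 8⟩ ⟨0, 0, 0, 0, 0, 0⟩ :=
  mC_good H_ok M0.k LB.nil LC.nil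

theorem done : Done (KS (.ex 4) (.ex 5) (.ex 7)) := fin (by decide +kernel) g0

end Pool.Agent.Work.MP_88b7aa_gt.D.C457
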